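import Pool.Agent.K6.H65.WS.Den

set_option autoImplicit false

/-!
# The zeros and poles on the edge line of the L-functions of a motive, twisted by all unitary
representations of the Weil group

Let `M` be a motive over a number field `K` (a Chow motive over `ℚ`, for example), of weight `w` and rank
`N`.  We consider the `L`-functions `L(M ⊗ ρ, s)` of the twists of `M` by all finite-dimensional unitary
representations `ρ` of the Weil group of `K` (twists by Artin representations, by Hecke characters of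
infinite order, by CM forms of all weights, ...) at all points `s_τ = w/2 + 1 + iτ` of the edge of the
half-plane of absolute convergence.  No analytic continuation is assumed.

The definitions are in `Pool.Agent.K6.H65.WS.Defs`, those of `WRep` and `WRep.inner` in
`Pool.Agent.N172.HS.Rep` (starting files).
-/

namespace Pool.Agent.Results.MP_148101_nt.WeilGroupSpectrum

open NumberField IsDedekindDomain Filter Topology Polynomial
open Pool.Agent.N172.HS (WRep)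
open Pool.Agent.K6.H65.WS

/-- Let `M` be a motive over `K`, of weight `w` and rank `N`.

(0) If `L(M ⊗ ρ, s)` continues to a meromorphic function near `s_τ`, then its order at `s_τ` is the number
`r` in `HasOrder`.

(1) For finitely many `ρ_k`, `τ_k` and real `c_k` the sizes `x_k(ε) = log |L(M ⊗ ρ_k, s_{τ_k} + ε)| / log(1/ε)`
and `y(ε) = log |L(M ⊗ M, w + 1 + ε)| / log(1/ε)` satisfy, for every `η > 0` and all small `ε > 0`,
`(∑ c_k x_k)² ≤ y ∑ c_k c_l ⟨ρ_k ⊗ |·|^{-iτ_k}, ρ_l ⊗ |·|^{-iτ_l}⟩ + η` and `y ≤ N² + η`.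

(2) For all `δ > 0` and `C` there are `n ≤ C N² / δ²` pairwise orthogonal pairs `(σ_k, υ_k)` such that for
every `ρ` with `⟨ρ, ρ⟩ ≤ C` and every `τ` with `ρ ⊗ |·|^{-iτ}` orthogonal to all `σ_k ⊗ |·|^{-iυ_k}` the size
of `L(M ⊗ ρ, s)` at `s_τ` is less than `δ` for arbitrarily small `ε`.

(3) There are `n ≤ N²` pairwise orthogonal pairs `(σ_k, υ_k)`, `σ_k` irreducible, and integers `r_k ≠ 0`, the
order of `L(M ⊗ σ_k, s)` at `s_{υ_k}`, with `∑ r_k² ≤ N²`, such that for every irreducible `ρ` and every `τ` for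
which `L(M ⊗ ρ, s)` has an order `r` at `s_τ`, `r = ∑ r_k ⟨ρ ⊗ |·|^{-iτ}, σ_k ⊗ |·|^{-iυ_k}⟩`.  If `L(M ⊗ M, s)`
has a pole of order `R` at `w + 1` then `∑ r_k² ≤ R`.  `L(M ⊗ M, s)` has the order `-∑ r_k²` at `w + 1` if and
only if, for every `δ > 0`, the normalised trace of the Frobenius on `M` is within `δ` of the trace on
`-∑ r_k σ_k ⊗ |·|^{-iυ_k}` apart from primes of density zero; and in this case for EVERY `ρ` and every `τ` the
number `log |L(M ⊗ ρ, s_τ + ε)| / log(1/ε)` tends to `-∑ r_k ⟨ρ ⊗ |·|^{-iτ}, σ_k ⊗ |·|^{-iυ_k}⟩`. -/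
theorem result (K : Type) [Field K] [NumberField K] (M : Motive K) :
    (∀ (ρ : WRep K) (B : HeightOneSpectrum (𝓞 K) → ℂ[X]) (τ : ℝ) (Λ : ℂ → ℂ), IsTensor M ρ B →
      MeromorphicAt Λ (edge M.weight τ) →
      (∀ᶠ s in 𝓝 (edge M.weight τ), (M.weight : ℝ) / 2 + 1 < s.re → Λ s = LFun B s) →
      ∃ r : ℤ, meromorphicOrderAt Λ (edge M.weight τ) = r ∧ HasOrder M.weight B τ r) ∧
    (∀ A : HeightOneSpectrum (𝓞 K) → ℂ[X], IsSquare M A → ∀ η : ℝ, 0 < η →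
      (∀ᶠ ε in 𝓝[>] (0 : ℝ), size (2 * M.weight) A 0 ε ≤ (M.rank : ℝ) ^ 2 + η) ∧
      ∀ (n : ℕ) (ρ : Fin n → WRep K) (B : Fin n → HeightOneSpectrum (𝓞 K) → ℂ[X])
        (τ c : Fin n → ℝ), (∀ k, IsTensor M (ρ k) (B k)) →
        ∀ᶠ ε in 𝓝[>] (0 : ℝ), (∑ k, c k * size M.weight (B k) (τ k) ε) ^ 2 ≤
          size (2 * M.weight) A 0 ε *
            ∑ k, ∑ l, c k * c l * (ip (ρ k) (τ k) (ρ l) (τ l) : ℝ) + η) ∧
    (∀ (δ : ℝ), 0 < δ → ∀ C : ℕ, ∃ (n : ℕ) (σ : Fin n → WRep K) (υ : Fin n → ℝ),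
      n * δ ^ 2 ≤ C * (M.rank : ℝ) ^ 2 ∧ (∀ k, (σ k).inner (σ k) ≤ C) ∧
      (∀ k l, k ≠ l → ip (σ k) (υ k) (σ l) (υ l) = 0) ∧
      ∀ (ρ : WRep K) (τ : ℝ), ρ.inner ρ ≤ C → (∀ k, ip ρ τ (σ k) (υ k) = 0) →
        ∀ B, IsTensor M ρ B → ∃ᶠ ε in 𝓝[>] (0 : ℝ), |size M.weight B τ ε| < δ) ∧
    ∃ (n : ℕ) (σ : Fin n → WRep K) (υ : Fin n → ℝ) (r : Fin n → ℤ),
      n ≤ M.rank ^ 2 ∧ (∀ k, r k ≠ 0) ∧
      (∀ k, (σ k).inner (σ k) = 1 ∧ ∃ B, IsTensor M (σ k) B ∧ HasOrder M.weight B (υ k) (r k)) ∧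
      (∀ k l, k ≠ l → ip (σ k) (υ k) (σ l) (υ l) = 0) ∧
      ∑ k, (r k) ^ 2 ≤ (M.rank : ℤ) ^ 2 ∧
      (∀ (ρ : WRep K) (τ : ℝ) (B : HeightOneSpectrum (𝓞 K) → ℂ[X]) (r₀ : ℤ), ρ.inner ρ = 1 →
        IsTensor M ρ B → HasOrder M.weight B τ r₀ →
          r₀ = ∑ k, r k * ip ρ τ (σ k) (υ k)) ∧
      ∀ A : HeightOneSpectrum (𝓞 K) → ℂ[X], IsSquare M A →
        (∀ R : ℤ, HasOrder (2 * M.weight) A 0 (-R) → ∑ k, (r k) ^ 2 ≤ R) ∧
        (HasOrder (2 * M.weight) A 0 (-(∑ k, (r k) ^ 2)) ↔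
          ∀ δ : ℝ, 0 < δ → DensityZero (deviation M σ υ r δ)) ∧
        (HasOrder (2 * M.weight) A 0 (-(∑ k, (r k) ^ 2)) →
          ∀ (ρ : WRep K) (τ : ℝ) (B : HeightOneSpectrum (𝓞 K) → ℂ[X]), IsTensor M ρ B →
            HasOrder M.weight B τ (∑ k, r k * ip ρ τ (σ k) (υ k))) := by
  refine ⟨fun ρ B τ Λ hB h1 h2 => ?_, fun A hA η hη => ⟨square_le M hA hη,
    fun n ρ B τ c hB => ineq M hA hB τ c hη⟩, fun δ hδ C => exceptional M hδ C, ?_⟩
  · exact order_of_continuation M.weight B τ (tensor_size hB τ).1 h1 h2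
  · obtain ⟨n, σ, υ, r, h1, h2, h3, h4, h5, h6, h7, h8⟩ := spectrum M
    exact ⟨n, σ, υ, r, h1, h2, h3, h4, h5, h7, fun A hA => ⟨fun R hR => h6 A R hA hR,
      saturated_iff M σ υ r (fun k => (h3 k).1) (fun k => (h3 k).2) h4 hA, h8 A hA⟩⟩

end Pool.Agent.Results.MP_148101_nt.WeilGroupSpectrum
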